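import Pool.Agent.Helper73.Split.Main

/-!
# Compact spaces splittable over the class of Gul'ko compacta

Every compact Hausdorff space which is splittable over the class of Gul'ko compact spaces is
itself Gul'ko compact. Consequently every continuous (Hausdorff) image of such a space is Gul'ko
compact, and in particular again splittable over the class of Gul'ko compact spaces.
-/

open Set Topology TopologicalSpace

universe u

namespace Pool.Agent.Results.MP_e02861_gt.SplittableGulko

/-- The set underlying the space `C_p(X)`: all continuous real-valued functions on `X`. -/
def Cp (X : Type u) [TopologicalSpace X] : Type u := {f : X → ℝ // Continuous f}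

/-- The topology of pointwise convergence on `C_p(X)`: the topology induced from the product
topology on `X → ℝ`. -/
instance instTopCp (X : Type u) [TopologicalSpace X] : TopologicalSpace (Cp X) :=
  TopologicalSpace.induced (fun f : Cp X => f.1) inferInstance

/-- `Z` is a Lindelof Sigma space: it is the image, under a continuous surjection `φ`, of a
Tychonoff space `E` that admits a perfect map `π` onto a separable metrizable space `M`. -/
def IsLindelofSigma (Z : Type u) [TopologicalSpace Z] : Prop :=
  ∃ (E : Type u) (_ : TopologicalSpace E) (M : Type u) (_ : TopologicalSpace M)
    (π : E → M) (φ : E → Z),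
    T35Space E ∧ SeparableSpace M ∧ MetrizableSpace M ∧ IsProperMap π ∧
      Function.Surjective π ∧ Continuous φ ∧ Function.Surjective φ

/-- `K` is a Gul'ko compact space: a compact Hausdorff space such that `C_p(K)` is a
Lindelof Sigma space. -/
def IsGulko (K : Type u) [TopologicalSpace K] : Prop :=
  CompactSpace K ∧ T2Space K ∧ IsLindelofSigma (Cp K)

/-- `X` is splittable over the class of Gul'ko compact spaces: for every subset `A` of `X` there
are a Gul'ko compact space `Y` and a continuous map `f : X → Y` with `f ⁻¹(f(A)) = A`. -/
def SplittableOverGulko (X : Type u) [TopologicalSpace X] : Prop :=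
  ∀ A : Set X, ∃ (Y : Type u) (_ : TopologicalSpace Y) (f : X → Y),
    IsGulko Y ∧ Continuous f ∧ f ⁻¹' (f '' A) = A

/-- A compact Hausdorff space `X` which is splittable over the class of Gul'ko compact spaces is
Gul'ko compact, and all its continuous Hausdorff images are Gul'ko compact and splittable over
the class of Gul'ko compact spaces. -/
theorem result (X : Type u) [TopologicalSpace X] [CompactSpace X] [T2Space X]
    (hX : SplittableOverGulko X) :
    IsGulko X ∧
      ∀ (Z : Type u) [TopologicalSpace Z] [T2Space Z] (g : X → Z),
        Continuous g → Function.Surjective g → IsGulko Z ∧ SplittableOverGulko Z := by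
  have hX' : Helper73.Split.Splittable X := hX
  have h1 : Helper73.Split.IsGulko X := hX'.isGulko
  refine ⟨h1, ?_⟩
  intro Z _ _ g hg hgs
  have h2 : Helper73.Split.IsGulko Z := Helper73.Split.isGulko_of_image h1 g hg hgs
  exact ⟨h2, h2.splittable⟩

end Pool.Agent.Results.MP_e02861_gt.SplittableGulko
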